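import Pool.Agent.Helper82.CF.Cir

/-!
The choice clause: a set of pairs of elements of `A` (`r_A < 2^(k+1)`) which is computed by `s`
unions and sumsets in `ℤ × ℤ` has at most `((3s)^k 18^(k^2))^2` elements; so a rule which
chooses one representation `n = a + b` for every `n` in `[t,x)` cannot be computed by few
unions and sumsets, for any basis `A` with bounded `r_A`.
-/

open scoped Pointwise

namespace Pool.Agent.Helper29.CC

open Pool.Agent.Helper82.CF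

section map

variable {G H : Type*} [AddCommGroup G] [DecidableEq G] [AddCommGroup H] [DecidableEq H]

/-- the image of a circuit under a homomorphism is a circuit -/
theorem isCircuit_map {s : ℕ} {S : ℕ → Finset G} (hS : IsCircuit s S) (p : G →+ H) :
    IsCircuit s (fun i => (S i).image p) := by
  intro i hi
  rcases hS i hi with ⟨t, ht⟩ | ⟨a, ha, b, hb, h⟩ | ⟨a, ha, b, hb, h⟩
  · left
    exact ⟨p t, by simp only [ht, Finset.image_singleton]⟩
  · right; left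
    refine ⟨a, ha, b, hb, ?_⟩
    simp only [h, Finset.image_union]
  · right; right
    refine ⟨a, ha, b, hb, ?_⟩
    simp only [h]
    exact Finset.image_add p

end map

theorem rep_mono {A A' : Set ℕ} (h : A' ⊆ A) (n : ℕ) : rep A' n ≤ rep A n := by
  refine Set.ncard_le_ncard ?_ (rep_finite A n)
  rintro p ⟨h1, h2, h3⟩
  exact ⟨h h1, h h2, h3⟩

/-- local form of `circuits`: only the numbers `n ≤ 2x` matter -/
theorem circuits_local {A : Set ℕ} {k x : ℕ} (hg : ∀ n ≤ 2 * x, rep A n < 2 ^ (k + 1)) {s : ℕ}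
    {S : ℕ → Finset ℤ} (hS : IsCircuit s S) {i : ℕ} (hi : i < s)
    (hA : ∀ z ∈ S i, ∃ a ∈ A, a ≤ x ∧ (a : ℤ) = z) :
    (S i).card ≤ (3 * s) ^ k * 18 ^ (k ^ 2) := by
  refine circuits (A := {a | a ∈ A ∧ a ≤ x}) ?_ hS hi ?_
  · intro n
    rcases Nat.lt_or_ge (2 * x) n with h | h
    · have h0 : rep {a | a ∈ A ∧ a ≤ x} n = 0 := by
        unfold rep
        rw [Set.ncard_eq_zero (rep_finite _ n)]
        ext p
        simp only [Set.mem_ofPred_eq, Set.mem_empty_iff_false, iff_false]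
        rintro ⟨⟨-, h1⟩, ⟨-, h2⟩, h3⟩
        omega
      rw [h0]
      positivity
    · exact (rep_mono (fun a ha => ha.1) n).trans_lt (hg n h)
  · intro z hz
    obtain ⟨a, ha, hax, haz⟩ := hA z hz
    exact ⟨a, ⟨ha, hax⟩, haz⟩

/-- **Choices.**  A circuit over `ℤ × ℤ` for a set of pairs of elements of `A`. -/
theorem choice_card {A : Set ℕ} {k x : ℕ} (hg : ∀ n ≤ 2 * x, rep A n < 2 ^ (k + 1)) {s : ℕ}
    {T : ℕ → Finset (ℤ × ℤ)} (hT : IsCircuit s T) {i : ℕ} (hi : i < s)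
    (hA : ∀ z ∈ T i, (∃ a ∈ A, a ≤ x ∧ (a : ℤ) = z.1) ∧ ∃ b ∈ A, b ≤ x ∧ (b : ℤ) = z.2) :
    (T i).card ≤ ((3 * s) ^ k * 18 ^ (k ^ 2)) ^ 2 := by
  have h1 := circuits_local hg (isCircuit_map hT (AddMonoidHom.fst ℤ ℤ)) hi (by
    intro z hz
    obtain ⟨w, hw, rfl⟩ := Finset.mem_image.1 hz
    exact (hA w hw).1)
  have h2 := circuits_local hg (isCircuit_map hT (AddMonoidHom.snd ℤ ℤ)) hi (by
    intro z hz
    obtain ⟨w, hw, rfl⟩ := Finset.mem_image.1 hz
    exact (hA w hw).2)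
  have h3 : T i ⊆ ((T i).image (AddMonoidHom.fst ℤ ℤ)) ×ˢ ((T i).image (AddMonoidHom.snd ℤ ℤ)) := by
    intro z hz
    rw [Finset.mem_product]
    exact ⟨Finset.mem_image_of_mem _ hz, Finset.mem_image_of_mem _ hz⟩
  calc (T i).card ≤ _ := Finset.card_le_card h3
    _ = _ := Finset.card_product _ _
    _ ≤ _ := Nat.mul_le_mul h1 h2
    _ = _ := by ring

/-- number of integers whose chosen representation is in the circuit -/
theorem choice_sums {A : Set ℕ} {k x : ℕ} (hg : ∀ n ≤ 2 * x, rep A n < 2 ^ (k + 1)) {s : ℕ}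
    {T : ℕ → Finset (ℤ × ℤ)} (hT : IsCircuit s T) {i : ℕ} (hi : i < s)
    (hA : ∀ z ∈ T i, (∃ a ∈ A, a ≤ x ∧ (a : ℤ) = z.1) ∧ ∃ b ∈ A, b ≤ x ∧ (b : ℤ) = z.2)
    {W : Finset ℕ} (hW : ∀ n ∈ W, ∃ z ∈ T i, z.1 + z.2 = (n : ℤ)) :
    W.card ≤ ((3 * s) ^ k * 18 ^ (k ^ 2)) ^ 2 := by
  refine le_trans ?_ (choice_card hg hT hi hA)
  have h1 : W.image (fun n : ℕ => (n : ℤ)) ⊆ (T i).image (fun z => z.1 + z.2) := by
    intro w hw
    obtain ⟨n, hn, rfl⟩ := Finset.mem_image.1 hw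
    obtain ⟨z, hz, hzn⟩ := hW n hn
    exact Finset.mem_image.2 ⟨z, hz, hzn⟩
  have h2 := (Finset.card_le_card h1).trans Finset.card_image_le
  rwa [Finset.card_image_of_injective _ Nat.cast_injective] at h2

/-- every `n` in `[t, x)` has its chosen representation in the circuit -/
theorem choice_cover {A : Set ℕ} {k t x : ℕ} (hg : ∀ n ≤ 2 * x, rep A n < 2 ^ (k + 1)) {s : ℕ}
    {T : ℕ → Finset (ℤ × ℤ)} (hT : IsCircuit s T) {i : ℕ} (hi : i < s)
    (hA : ∀ z ∈ T i, (∃ a ∈ A, a ≤ x ∧ (a : ℤ) = z.1) ∧ ∃ b ∈ A, b ≤ x ∧ (b : ℤ) = z.2)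
    (hcov : ∀ n : ℕ, t ≤ n → n < x → ∃ z ∈ T i, z.1 + z.2 = (n : ℤ)) :
    x - t ≤ ((3 * s) ^ k * 18 ^ (k ^ 2)) ^ 2 := by
  have h := choice_sums hg hT hi hA (W := Finset.Ico t x) (by
    intro n hn
    rw [Finset.mem_Ico] at hn
    exact hcov n hn.1 hn.2)
  rwa [Nat.card_Ico] at h

end Pool.Agent.Helper29.CC
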