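import Mathlib

/-!
Circuits with union gates and Minkowski sum gates over an additive commutative group.
A family `F 0, F 1, ..., F (N-1)` of finite sets is a circuit if each `F i` is a one-element
set or the union or the sumset of two earlier sets.

`HasSum m k S` : `S` contains a sum of `k` sets with more than `m` elements each.
-/

open scoped Pointwise

namespace H29CC

variable {G : Type*} [AddCommGroup G] [DecidableEq G]

/-- circuit of `N` sets -/
def IsCircuit (N : ℕ) (F : ℕ → Finset G) : Prop :=
  ∀ i < N, (∃ t, F i = {t}) ∨ (∃ a < i, ∃ b < i, F i = F a ∪ F b) ∨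
    (∃ a < i, ∃ b < i, F i = F a + F b)

/-- the gates: indices of the sets which have more than one element -/
def gates (N : ℕ) (F : ℕ → Finset G) : Finset ℕ :=
  (Finset.range N).filter fun i => 1 < (F i).card

/-- `S` contains a translate of a sum of `k` sets with more than `m` elements each -/
def HasSum (m : ℕ) : ℕ → Finset G → Prop
  | 0, S => S.Nonempty
  | (k + 1), S => ∃ B T : Finset G, m < B.card ∧ HasSum m k T ∧ B + T ⊆ S

theorem HasSum.nonempty {m k : ℕ} {S : Finset G} (h : HasSum m k S) : S.Nonempty := by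
  induction k generalizing S with
  | zero => exact h
  | succ k ih =>
    obtain ⟨B, T, hB, hT, hs⟩ := h
    have hBn : B.Nonempty := Finset.card_pos.1 (by omega)
    exact (hBn.add (ih hT)).mono hs

theorem HasSum.mono {m k : ℕ} {S S' : Finset G} (h : HasSum m k S) (hs : S ⊆ S') :
    HasSum m k S' := by
  cases k with
  | zero => exact Finset.Nonempty.mono hs h
  | succ k =>
    obtain ⟨B, T, hB, hT, hBT⟩ := h
    exact ⟨B, T, hB, hT, hBT.trans hs⟩

theorem HasSum.of_succ {m k : ℕ} {S : Finset G} (h : HasSum m (k + 1) S) : HasSum m k S := by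
  induction k generalizing S with
  | zero => exact HasSum.nonempty h
  | succ k ih =>
    obtain ⟨B, T, hB, hT, hBT⟩ := h
    exact ⟨B, T, hB, ih hT, hBT⟩

theorem HasSum.le {m k l : ℕ} {S : Finset G} (h : HasSum m l S) (hkl : k ≤ l) :
    HasSum m k S := by
  induction l with
  | zero =>
    have : k = 0 := by omega
    subst this
    exact h
  | succ l ih =>
    rcases Nat.lt_or_ge l k with h1 | h1
    · have : k = l + 1 := by omega
      subst this
      exact h
    · exact ih h.of_succ h1

/-- translates -/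
theorem HasSum.translate {m k : ℕ} {S : Finset G} (h : HasSum m k S) (c : G) :
    HasSum m k ({c} + S) := by
  induction k generalizing S with
  | zero => exact (Finset.singleton_nonempty c).add h
  | succ k ih =>
    obtain ⟨B, T, hB, hT, hBT⟩ := h
    refine ⟨B, {c} + T, hB, ih hT, ?_⟩
    rw [← add_assoc, add_comm B, add_assoc]
    exact Finset.add_subset_add_left hBT

theorem HasSum.add {m a b : ℕ} {U V : Finset G} (hU : HasSum m a U) (hV : HasSum m b V) :
    HasSum m (a + b) (U + V) := by
  induction a generalizing U with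
  | zero =>
    obtain ⟨u, hu⟩ := (show U.Nonempty from hU)
    rw [Nat.zero_add]
    exact (hV.translate u).mono (Finset.add_subset_add_right (Finset.singleton_subset_iff.2 hu))
  | succ a ih =>
    obtain ⟨B, T, hB, hT, hBT⟩ := hU
    have h1 : HasSum m (a + b) (T + V) := ih hT
    have : a + 1 + b = (a + b) + 1 := by ring
    rw [this]
    refine ⟨B, T + V, hB, h1, ?_⟩
    rw [← add_assoc]
    exact Finset.add_subset_add_right hBT

theorem HasSum.one {m : ℕ} {S : Finset G} (h : m < S.card) : HasSum m 1 S :=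
  ⟨S, {0}, h, Finset.singleton_nonempty 0, by rw [Finset.singleton_zero, add_zero]⟩

/-- the set of all translations which carry `T` into `S` -/
theorem card_translates {m k : ℕ} {S T C : Finset G} (hT : HasSum m k T)
    (hS : ¬ HasSum m (k + 1) S) (hC : ∀ c ∈ C, ∀ y ∈ T, c + y ∈ S) : C.card ≤ m := by
  by_contra hcon
  push Not at hcon
  apply hS
  refine ⟨C, T, hcon, hT, ?_⟩
  intro x hx
  obtain ⟨c, hc, y, hy, rfl⟩ := Finset.mem_add.1 hx
  exact hC c hc y hy

theorem singleton_not {m k : ℕ} (hm : 1 ≤ m) (t : G) : ¬ HasSum m (k + 1) ({t} : Finset G) := by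
  rintro ⟨B, T, hB, hT, hBT⟩
  obtain ⟨y, hy⟩ := hT.nonempty
  have h1 : (B + {y}).card = B.card := by
    rw [Finset.card_add_singleton]
  have h2 : B + {y} ⊆ ({t} : Finset G) :=
    (Finset.add_subset_add_left (Finset.singleton_subset_iff.2 hy)).trans hBT
  have h3 := Finset.card_le_card h2
  rw [h1, Finset.card_singleton] at h3
  omega

/-- the bound: `m` for `k = 0`, `(2s)^(2k-1) m^(4k-1)` for `k ≥ 1` -/
def bnd (s m : ℕ) : ℕ → ℕ
  | 0 => m
  | (k + 1) => (2 * s) ^ (2 * k + 1) * m ^ (4 * k + 3)

theorem bnd_le_succ {s m : ℕ} (hs : 1 ≤ s) (hm : 1 ≤ m) (k : ℕ) :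
    bnd s m k ≤ bnd s m (k + 1) := by
  cases k with
  | zero =>
    simp only [bnd]
    have h1 : 1 ≤ (2 * s) ^ (2 * 0 + 1) := Nat.one_le_pow _ _ (by omega)
    have h2 : m ≤ m ^ (4 * 0 + 3) := by
      calc m = m ^ 1 := (pow_one m).symm
        _ ≤ m ^ (4 * 0 + 3) := Nat.pow_le_pow_right hm (by norm_num)
    nlinarith
  | succ k =>
    simp only [bnd]
    exact Nat.mul_le_mul (Nat.pow_le_pow_right (by omega) (by omega))
      (Nat.pow_le_pow_right hm (by omega))

theorem bnd_mono {s m : ℕ} (hs : 1 ≤ s) (hm : 1 ≤ m) {a b : ℕ} (h : a ≤ b) :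
    bnd s m a ≤ bnd s m b := by
  induction b with
  | zero =>
    have : a = 0 := by omega
    rw [this]
  | succ b ih =>
    rcases Nat.lt_or_ge b a with h1 | h1
    · have : a = b + 1 := by omega
      rw [this]
    · exact (ih h1).trans (bnd_le_succ hs hm b)

theorem bnd_step_union {s m : ℕ} (hs : 1 ≤ s) (hm : 1 ≤ m) (k : ℕ) :
    s * (m * (2 * bnd s m k)) ≤ bnd s m (k + 1) := by
  cases k with
  | zero =>
    simp only [bnd]
    have h2 : m ^ 2 ≤ m ^ (4 * 0 + 3) := Nat.pow_le_pow_right hm (by norm_num)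
    calc s * (m * (2 * m)) = (2 * s) * m ^ 2 := by ring
      _ ≤ (2 * s) * m ^ (4 * 0 + 3) := Nat.mul_le_mul_left _ h2
      _ = (2 * s) ^ (2 * 0 + 1) * m ^ (4 * 0 + 3) := by ring
  | succ k =>
    simp only [bnd]
    have h1 : (2 * s) ^ (2 * k + 2) ≤ (2 * s) ^ (2 * (k + 1) + 1) :=
      Nat.pow_le_pow_right (by omega) (by omega)
    have h2 : m ^ (4 * k + 4) ≤ m ^ (4 * (k + 1) + 3) :=
      Nat.pow_le_pow_right hm (by omega)
    calc s * (m * (2 * ((2 * s) ^ (2 * k + 1) * m ^ (4 * k + 3))))
        = (2 * s) ^ (2 * k + 2) * m ^ (4 * k + 4) := by ring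
      _ ≤ _ := Nat.mul_le_mul h1 h2

theorem bnd_step_add {s m : ℕ} (hs : 1 ≤ s) (hm : 1 ≤ m) {k a b : ℕ} (hab : a + b ≤ k + 1)
    (ha : a ≤ k) (hb : b ≤ k) :
    s * (m * (bnd s m a * bnd s m b)) ≤ bnd s m (k + 1) := by
  rcases a with _ | a
  · -- a = 0
    rcases b with _ | b
    · simp only [bnd]
      have h1 : (2 * s) ^ 1 ≤ (2 * s) ^ (2 * k + 1) :=
        Nat.pow_le_pow_right (by omega) (by omega)
      have h2 : m ^ 3 ≤ m ^ (4 * k + 3) := Nat.pow_le_pow_right hm (by omega)
      calc s * (m * (m * m)) ≤ (2 * s) ^ 1 * m ^ 3 := by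
            have h3 : s * (m * (m * m)) = s * m ^ 3 := by ring
            rw [h3, pow_one]
            exact Nat.mul_le_mul_right _ (by omega)
        _ ≤ _ := Nat.mul_le_mul h1 h2
    · simp only [bnd]
      have h1 : (2 * s) ^ (2 * b + 2) ≤ (2 * s) ^ (2 * k + 1) :=
        Nat.pow_le_pow_right (by omega) (by omega)
      have h2 : m ^ (4 * b + 5) ≤ m ^ (4 * k + 3) := Nat.pow_le_pow_right hm (by omega)
      calc s * (m * (m * ((2 * s) ^ (2 * b + 1) * m ^ (4 * b + 3))))
          = s * (2 * s) ^ (2 * b + 1) * m ^ (4 * b + 5) := by ring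
        _ ≤ (2 * s) ^ (2 * b + 2) * m ^ (4 * b + 5) := by
            apply Nat.mul_le_mul_right
            calc s * (2 * s) ^ (2 * b + 1) ≤ (2 * s) * (2 * s) ^ (2 * b + 1) :=
                  Nat.mul_le_mul_right _ (by omega)
              _ = (2 * s) ^ (2 * b + 2) := by ring
        _ ≤ _ := Nat.mul_le_mul h1 h2
  · rcases b with _ | b
    · simp only [bnd]
      have h1 : (2 * s) ^ (2 * a + 2) ≤ (2 * s) ^ (2 * k + 1) :=
        Nat.pow_le_pow_right (by omega) (by omega)
      have h2 : m ^ (4 * a + 5) ≤ m ^ (4 * k + 3) := Nat.pow_le_pow_right hm (by omega)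
      calc s * (m * (((2 * s) ^ (2 * a + 1) * m ^ (4 * a + 3)) * m))
          = s * (2 * s) ^ (2 * a + 1) * m ^ (4 * a + 5) := by ring
        _ ≤ (2 * s) ^ (2 * a + 2) * m ^ (4 * a + 5) := by
            apply Nat.mul_le_mul_right
            calc s * (2 * s) ^ (2 * a + 1) ≤ (2 * s) * (2 * s) ^ (2 * a + 1) :=
                  Nat.mul_le_mul_right _ (by omega)
              _ = (2 * s) ^ (2 * a + 2) := by ring
        _ ≤ _ := Nat.mul_le_mul h1 h2
    · simp only [bnd]
      have h1 : (2 * s) ^ (2 * a + 2 * b + 3) ≤ (2 * s) ^ (2 * k + 1) :=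
        Nat.pow_le_pow_right (by omega) (by omega)
      have h2 : m ^ (4 * a + 4 * b + 7) ≤ m ^ (4 * k + 3) :=
        Nat.pow_le_pow_right hm (by omega)
      calc s * (m * (((2 * s) ^ (2 * a + 1) * m ^ (4 * a + 3)) *
              ((2 * s) ^ (2 * b + 1) * m ^ (4 * b + 3))))
          = s * (2 * s) ^ (2 * a + 2 * b + 2) * m ^ (4 * a + 4 * b + 7) := by ring
        _ ≤ (2 * s) ^ (2 * a + 2 * b + 3) * m ^ (4 * a + 4 * b + 7) := by
            apply Nat.mul_le_mul_right
            calc s * (2 * s) ^ (2 * a + 2 * b + 2) ≤ (2 * s) * (2 * s) ^ (2 * a + 2 * b + 2) :=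
                  Nat.mul_le_mul_right _ (by omega)
              _ = (2 * s) ^ (2 * a + 2 * b + 3) := by ring
        _ ≤ _ := Nat.mul_le_mul h1 h2

/-- a set with elements has a largest `k` -/
theorem exists_rank {m : ℕ} (K : ℕ) {S : Finset G} (hne : S.Nonempty)
    (h : ¬ HasSum m (K + 1) S) : ∃ a ≤ K, HasSum m a S ∧ ¬ HasSum m (a + 1) S := by
  induction K with
  | zero => exact ⟨0, le_rfl, hne, h⟩
  | succ K ih =>
    by_cases h1 : HasSum m (K + 1) S
    · exact ⟨K + 1, le_rfl, h1, h⟩
    · obtain ⟨a, ha, h2⟩ := ih h1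
      exact ⟨a, by omega, h2⟩

theorem circuit_nonempty {N : ℕ} {F : ℕ → Finset G} (hF : IsCircuit N F) :
    ∀ i < N, (F i).Nonempty := by
  intro i
  induction i using Nat.strong_induction_on with
  | _ i ih =>
    intro hi
    rcases hF i hi with ⟨t, ht⟩ | ⟨a, ha, b, hb, h⟩ | ⟨a, ha, b, hb, h⟩
    · rw [ht]; exact Finset.singleton_nonempty t
    · rw [h]; exact (ih a ha (by omega)).mono Finset.subset_union_left
    · rw [h]; exact (ih a ha (by omega)).add (ih b hb (by omega))

/-- **Main counting bound.** If a set of a circuit with `s` gates does not contain a sum of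
`k+1` sets with more than `m` elements each, it has at most `bnd s m k` elements. -/
theorem card_le {N : ℕ} {F : ℕ → Finset G} (hF : IsCircuit N F) {s m : ℕ} (hs : 1 ≤ s)
    (hm : 1 ≤ m) (hg : (gates N F).card ≤ s) (k : ℕ) :
    ∀ i < N, ¬ HasSum m (k + 1) (F i) → (F i).card ≤ bnd s m k := by
  classical
  induction k using Nat.strong_induction_on with
  | _ k ih =>
  intro i hi hk
  rcases k with _ | k
  · by_contra hcon
    push Not at hcon
    exact hk (HasSum.one hcon)
  by_cases hk0 : HasSum m (k + 1) (F i)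
  swap
  · exact (ih k (by omega) i hi hk0).trans (bnd_le_succ hs hm k)
  -- the rest sets
  have hrest : ∀ j : ℕ, ∃ D : Finset G, ((j ∈ gates N F ∧ HasSum m (k + 1) (F j) ∧
      ∃ c, ∀ y ∈ F j, c + y ∈ F i) → s * (m * D.card) ≤ bnd s m (k + 1)) ∧
      (j < N → HasSum m (k + 1) (F j) → (∃ c, ∀ y ∈ F j, c + y ∈ F i) → ∀ y ∈ F j,
        y ∈ D ∨ ∃ a < j, HasSum m (k + 1) (F a) ∧ ∃ v, (∃ z ∈ F a, y = v + z) ∧
          ∀ z ∈ F a, v + z ∈ F j) := by
    intro j
    by_cases hj : j < N ∧ HasSum m (k + 1) (F j) ∧ ∃ c, ∀ y ∈ F j, c + y ∈ F i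
    swap
    · refine ⟨∅, ?_, ?_⟩
      · intro _; simp
      · intro h1 h2 h3
        exact absurd ⟨h1, h2, h3⟩ hj
    obtain ⟨hjN, hjk, c, hc⟩ := hj
    have hjk2 : ¬ HasSum m (k + 1 + 1) (F j) := by
      intro h
      apply hk
      refine (h.translate c).mono ?_
      intro x hx
      obtain ⟨c', hc', y, hy, rfl⟩ := Finset.mem_add.1 hx
      rw [Finset.mem_singleton] at hc'
      subst hc'
      exact hc y hy
    rcases hF j hjN with ⟨t, ht⟩ | ⟨a, ha, b, hb, h⟩ | ⟨a, ha, b, hb, h⟩
    · exfalso
      rw [ht] at hjk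
      exact singleton_not hm t hjk
    · -- union gate
      refine ⟨(if HasSum m (k + 1) (F a) then ∅ else F a) ∪
        (if HasSum m (k + 1) (F b) then ∅ else F b), ?_, ?_⟩
      · intro _
        have h1 : ∀ e < j, (if HasSum m (k + 1) (F e) then ∅ else F e).card ≤ bnd s m k := by
          intro e he
          split_ifs with hh
          · simp
          · exact ih k (by omega) e (by omega) hh
        have h2 := Finset.card_union_le (if HasSum m (k + 1) (F a) then ∅ else F a)
          (if HasSum m (k + 1) (F b) then ∅ else F b)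
        have h3 := h1 a ha
        have h4 := h1 b hb
        refine le_trans ?_ (bnd_step_union hs hm k)
        exact Nat.mul_le_mul_left _ (Nat.mul_le_mul_left _ (by omega))
      · intro _ _ _ y hy
        rw [h] at hy
        rcases Finset.mem_union.1 hy with hy | hy
        · by_cases hh : HasSum m (k + 1) (F a)
          · right
            refine ⟨a, ha, hh, 0, ⟨y, hy, by simp⟩, ?_⟩
            intro z hz
            rw [zero_add, h]
            exact Finset.mem_union_left _ hz
          · left
            apply Finset.mem_union_left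
            rw [if_neg hh]
            exact hy
        · by_cases hh : HasSum m (k + 1) (F b)
          · right
            refine ⟨b, hb, hh, 0, ⟨y, hy, by simp⟩, ?_⟩
            intro z hz
            rw [zero_add, h]
            exact Finset.mem_union_right _ hz
          · left
            apply Finset.mem_union_right
            rw [if_neg hh]
            exact hy
    · -- sum gate
      refine ⟨if HasSum m (k + 1) (F a) ∨ HasSum m (k + 1) (F b) then ∅ else F a + F b, ?_, ?_⟩
      · intro _
        split_ifs with hh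
        · simp
        · push Not at hh
          obtain ⟨a', ha', hA, hA2⟩ := exists_rank k (circuit_nonempty hF a (by omega)) hh.1
          obtain ⟨b', hb', hB, hB2⟩ := exists_rank k (circuit_nonempty hF b (by omega)) hh.2
          have hab : a' + b' ≤ k + 1 := by
            by_contra hcon
            push Not at hcon
            apply hjk2
            rw [h]
            exact (hA.add hB).le (by omega)
          have h1 := ih a' (by omega) a (by omega) hA2
          have h2 := ih b' (by omega) b (by omega) hB2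
          refine le_trans ?_ (bnd_step_add hs hm hab ha' hb')
          exact Nat.mul_le_mul_left _ (Nat.mul_le_mul_left _
            (Finset.card_add_le.trans (Nat.mul_le_mul h1 h2)))
      · intro _ _ _ y hy
        rw [h] at hy
        obtain ⟨u, hu, v, hv, rfl⟩ := Finset.mem_add.1 hy
        by_cases hh : HasSum m (k + 1) (F a)
        · right
          refine ⟨a, ha, hh, v, ⟨u, hu, by rw [add_comm]⟩, ?_⟩
          intro z hz
          rw [h, add_comm v z]
          exact Finset.add_mem_add hz hv
        by_cases hh' : HasSum m (k + 1) (F b)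
        · right
          refine ⟨b, hb, hh', u, ⟨v, hv, rfl⟩, ?_⟩
          intro z hz
          rw [h]
          exact Finset.add_mem_add hu hz
        left
        rw [if_neg (by tauto)]
        exact Finset.add_mem_add hu hv
  choose D hD1 hD2 using hrest
  -- translates
  let C : ℕ → Finset G := fun j => ((F i) - (F j)).filter fun c => ∀ y ∈ F j, c + y ∈ F i
  let J : Finset ℕ := (gates N F).filter fun j => HasSum m (k + 1) (F j) ∧
    ∃ c, ∀ y ∈ F j, c + y ∈ F i
  have hcover : F i ⊆ J.biUnion fun j => C j + D j := by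
    intro x hx
    let P : ℕ → Prop := fun j => j ≤ i ∧ HasSum m (k + 1) (F j) ∧
      ∃ c, (∀ y ∈ F j, c + y ∈ F i) ∧ ∃ y ∈ F j, x = c + y
    have hP : ∃ j, P j := ⟨i, le_rfl, hk0, 0, by simp, x, hx, by simp⟩
    obtain ⟨hj1, hj2, c, hc, y, hy, hxy⟩ := Nat.find_spec hP
    set j := Nat.find hP with hjdef
    rcases hD2 j (by omega) hj2 ⟨c, hc⟩ y hy with h | ⟨a, ha, hak, v, ⟨z, hz, hyz⟩, hv⟩
    · rw [Finset.mem_biUnion]
      refine ⟨j, ?_, ?_⟩
      · rw [Finset.mem_filter]
        refine ⟨?_, hj2, c, hc⟩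
        unfold gates
        rw [Finset.mem_filter, Finset.mem_range]
        refine ⟨by omega, ?_⟩
        by_contra hcon
        push Not at hcon
        obtain ⟨t, ht⟩ := Finset.card_eq_one.1
          (le_antisymm hcon (Finset.card_pos.2 hj2.nonempty))
        rw [ht] at hj2
        exact singleton_not hm t hj2
      · rw [hxy]
        apply Finset.add_mem_add _ h
        rw [Finset.mem_filter]
        refine ⟨?_, hc⟩
        rw [Finset.mem_sub]
        exact ⟨c + y, hc y hy, y, hy, by abel⟩
    · exfalso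
      refine Nat.find_min hP (m := a) ha ⟨by omega, hak, c + v, ?_, z, hz, ?_⟩
      · intro z' hz'
        rw [add_assoc]
        exact hc _ (hv z' hz')
      · rw [hxy, hyz, add_assoc]
  have hCj : ∀ j ∈ J, (C j).card ≤ m := by
    intro j hj
    have h1 := (Finset.mem_filter.1 hj).2.1
    refine card_translates h1 hk ?_
    intro c hc
    exact (Finset.mem_filter.1 hc).2
  have hJs : J.card ≤ s := (Finset.card_filter_le _ _).trans hg
  have hDj : ∀ j ∈ J, s * (m * (D j).card) ≤ bnd s m (k + 1) := by
    intro j hj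
    obtain ⟨h1, h2⟩ := Finset.mem_filter.1 hj
    exact hD1 j ⟨h1, h2⟩
  have hsum : s * (F i).card ≤ s * bnd s m (k + 1) := by
    calc s * (F i).card ≤ s * ∑ j ∈ J, (C j + D j).card :=
          Nat.mul_le_mul_left _ ((Finset.card_le_card hcover).trans Finset.card_biUnion_le)
      _ ≤ s * ∑ j ∈ J, m * (D j).card := by
          apply Nat.mul_le_mul_left
          apply Finset.sum_le_sum
          intro j hj
          exact Finset.card_add_le.trans (Nat.mul_le_mul_right _ (hCj j hj))
      _ = ∑ j ∈ J, s * (m * (D j).card) := by rw [Finset.mul_sum]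
      _ ≤ ∑ _j ∈ J, bnd s m (k + 1) := Finset.sum_le_sum hDj
      _ = J.card * bnd s m (k + 1) := by rw [Finset.sum_const, smul_eq_mul]
      _ ≤ s * bnd s m (k + 1) := Nat.mul_le_mul_right _ hJs
  exact Nat.le_of_mul_le_mul_left hsum (by omega)

end H29CC
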