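import Pool.Agent.Helper29.CC.Sharp

/-!
A sum of `k+1` sets with more than `3^k` elements each contains a proper cube, hence some `n`
has at least `2^(k+1)` representations. Consequences for circuits.
-/

open scoped Pointwise

namespace H29CC

variable {G : Type*} [AddCommGroup G] [DecidableEq G]

/-- number of ordered representations of `n` as a sum of two elements of `S` -/
def rep (S : Finset G) (n : G) : ℕ := (S.filter fun x => n - x ∈ S).card

theorem rep_mono {S T : Finset G} (h : S ⊆ T) (n : G) : rep S n ≤ rep T n := by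
  apply Finset.card_le_card
  intro x hx
  rw [Finset.mem_filter] at hx ⊢
  exact ⟨h hx.1, h hx.2⟩

/-- proper cubes -/
theorem exists_cube {m k : ℕ} {S : Finset G} (hm : 3 ^ k ≤ 3 * m) (h : HasSum m k S) :
    ∃ Q ⊆ S, Q.card = 2 ^ k ∧ (Q - Q).card ≤ 3 ^ k ∧ ∃ n, ∀ x ∈ Q, n - x ∈ Q := by
  induction k generalizing S with
  | zero =>
    obtain ⟨x, hx⟩ := (show S.Nonempty from h)
    refine ⟨{x}, Finset.singleton_subset_iff.2 hx, by simp, by simp, x + x, ?_⟩
    intro y hy
    rw [Finset.mem_singleton] at hy ⊢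
    rw [hy]; abel
  | succ k ih =>
    obtain ⟨B, T, hB, hT, hBT⟩ := h
    have hm1 : 3 ^ k ≤ m := by
      have : 3 ^ (k + 1) = 3 * 3 ^ k := by ring
      omega
    obtain ⟨Q, hQT, hQ, hQQ, n, hn⟩ := ih (by omega) hT
    have hBne : B.Nonempty := Finset.card_pos.1 (by omega)
    obtain ⟨b0, hb0⟩ := hBne
    have hex : ∃ b ∈ B, b - b0 ∉ Q - Q := by
      by_contra hcon
      push Not at hcon
      have h1 : (B.image fun b => b - b0) ⊆ Q - Q := by
        intro z hz
        obtain ⟨b, hb, rfl⟩ := Finset.mem_image.1 hz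
        exact hcon b hb
      have h2 := Finset.card_le_card h1
      rw [Finset.card_image_of_injective _ (fun a b hab => sub_left_injective hab)] at h2
      omega
    obtain ⟨b1, hb1, hb10⟩ := hex
    have hdisj : Disjoint ({b0} + Q) ({b1} + Q) := by
      rw [Finset.disjoint_left]
      intro z hz hz'
      obtain ⟨u, hu, q, hq, rfl⟩ := Finset.mem_add.1 hz
      obtain ⟨u', hu', q', hq', he⟩ := Finset.mem_add.1 hz'
      rw [Finset.mem_singleton] at hu hu'
      subst hu; subst hu'
      apply hb10
      rw [Finset.mem_sub]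
      refine ⟨q, hq, q', hq', ?_⟩
      have : u' + q' - q' - u = u + q - q' - u := by rw [he]
      have h3 : u' - u = q - q' := by
        calc u' - u = u' + q' - q' - u := by abel
          _ = u + q - q' - u := this
          _ = q - q' := by abel
      exact h3.symm
    refine ⟨({b0} + Q) ∪ ({b1} + Q), ?_, ?_, ?_, n + b0 + b1, ?_⟩
    · apply Finset.union_subset
      · exact (Finset.add_subset_add (Finset.singleton_subset_iff.2 hb0) hQT).trans hBT
      · exact (Finset.add_subset_add (Finset.singleton_subset_iff.2 hb1) hQT).trans hBT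
    · rw [Finset.card_union_of_disjoint hdisj, Finset.card_singleton_add,
        Finset.card_singleton_add, hQ]
      ring
    · have hsub : (({b0} + Q) ∪ ({b1} + Q)) - (({b0} + Q) ∪ ({b1} + Q)) ⊆
          ({0, b1 - b0, b0 - b1} : Finset G) + (Q - Q) := by
        intro z hz
        obtain ⟨u, hu, v, hv, rfl⟩ := Finset.mem_sub.1 hz
        have key : ∀ w ∈ ({b0} + Q) ∪ ({b1} + Q), ∃ q ∈ Q, w = b0 + q ∨ w = b1 + q := by
          intro w hw
          rcases Finset.mem_union.1 hw with hw | hw
          · obtain ⟨e, he, q, hq, rfl⟩ := Finset.mem_add.1 hw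
            rw [Finset.mem_singleton] at he
            exact ⟨q, hq, Or.inl (by rw [he])⟩
          · obtain ⟨e, he, q, hq, rfl⟩ := Finset.mem_add.1 hw
            rw [Finset.mem_singleton] at he
            exact ⟨q, hq, Or.inr (by rw [he])⟩
        obtain ⟨q, hq, h1⟩ := key u hu
        obtain ⟨q', hq', h2⟩ := key v hv
        have hqq : q - q' ∈ Q - Q := Finset.sub_mem_sub hq hq'
        rcases h1 with rfl | rfl <;> rcases h2 with rfl | rfl
        · refine Finset.mem_add.2 ⟨0, by simp, q - q', hqq, by abel⟩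
        · refine Finset.mem_add.2 ⟨b0 - b1, by simp, q - q', hqq, by abel⟩
        · refine Finset.mem_add.2 ⟨b1 - b0, by simp, q - q', hqq, by abel⟩
        · refine Finset.mem_add.2 ⟨0, by simp, q - q', hqq, by abel⟩
      have h3 : ({0, b1 - b0, b0 - b1} : Finset G).card ≤ 3 := Finset.card_le_three
      calc ((({b0} + Q) ∪ ({b1} + Q)) - (({b0} + Q) ∪ ({b1} + Q))).card
          ≤ (({0, b1 - b0, b0 - b1} : Finset G) + (Q - Q)).card := Finset.card_le_card hsub
        _ ≤ ({0, b1 - b0, b0 - b1} : Finset G).card * (Q - Q).card := Finset.card_add_le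
        _ ≤ 3 * 3 ^ k := Nat.mul_le_mul h3 hQQ
        _ = 3 ^ (k + 1) := by ring
    · intro x hx
      rcases Finset.mem_union.1 hx with hx | hx
      · obtain ⟨e, he, q, hq, rfl⟩ := Finset.mem_add.1 hx
        rw [Finset.mem_singleton] at he
        subst he
        apply Finset.mem_union_right
        exact Finset.mem_add.2 ⟨b1, Finset.mem_singleton_self _, n - q, hn q hq, by abel⟩
      · obtain ⟨e, he, q, hq, rfl⟩ := Finset.mem_add.1 hx
        rw [Finset.mem_singleton] at he
        subst he
        apply Finset.mem_union_left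
        exact Finset.mem_add.2 ⟨b0, Finset.mem_singleton_self _, n - q, hn q hq, by abel⟩

theorem exists_rep {m k : ℕ} {S : Finset G} (hm : 3 ^ k ≤ 3 * m) (h : HasSum m k S) :
    ∃ n, 2 ^ k ≤ rep S n := by
  obtain ⟨Q, hQS, hQ, -, n, hn⟩ := exists_cube hm h
  refine ⟨n, ?_⟩
  rw [← hQ]
  apply Finset.card_le_card
  intro x hx
  rw [Finset.mem_filter]
  exact ⟨hQS hx, hQS (hn x hx)⟩

/-- **Circuits.** If all representation numbers of a set `F i` of a circuit with `s` gates
are smaller than `2^(k+1)`, then `F i` has at most `(4s)^k 3^(k(2k+1))` elements. -/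
theorem circuit_card_le {N : ℕ} {F : ℕ → Finset G} (hF : IsCircuit N F) {s : ℕ} (hs : 1 ≤ s)
    (hg : (gates N F).card ≤ s) (k : ℕ) {i : ℕ} (hi : i < N)
    (hr : ∀ n, rep (F i) n < 2 ^ (k + 1)) : (F i).card ≤ B s (3 ^ k) k := by
  apply card_le_sharp hF hs (Nat.one_le_pow _ _ (by norm_num)) hg k i hi
  intro h
  obtain ⟨n, hn⟩ := exists_rep (by rw [pow_succ]; omega) h
  have := hr n
  omega

/-- image of a circuit under a homomorphism -/
theorem IsCircuit.map {N : ℕ} {F : ℕ → Finset G} (hF : IsCircuit N F) {H : Type*}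
    [AddCommGroup H] [DecidableEq H] (p : G →+ H) : IsCircuit N (fun i => (F i).image p) := by
  intro i hi
  rcases hF i hi with ⟨t, ht⟩ | ⟨a, ha, b, hb, h⟩ | ⟨a, ha, b, hb, h⟩
  · left
    exact ⟨p t, by simp only [ht, Finset.image_singleton]⟩
  · right; left
    refine ⟨a, ha, b, hb, ?_⟩
    simp only [h, Finset.image_union]
  · right; right
    refine ⟨a, ha, b, hb, ?_⟩
    simp only [h]
    exact Finset.image_add p

omit [DecidableEq G] in
theorem gates_map_le {N : ℕ} {F : ℕ → Finset G} {H : Type*} [AddCommGroup H] [DecidableEq H]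
    (p : G →+ H) : (gates N (fun i => (F i).image p)).card ≤ (gates N F).card := by
  apply Finset.card_le_card
  intro i hi
  unfold gates at hi ⊢
  rw [Finset.mem_filter] at hi ⊢
  refine ⟨hi.1, ?_⟩
  have := hi.2
  exact lt_of_lt_of_le this Finset.card_image_le

end H29CC
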