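import Pool.Agent.Helper29.CC.Circ

/-!
Sharp exponent: a set of a circuit with `s` gates which does not contain a sum of `k+1` sets
with more than `m` elements each has at most `(4s)^k m^(2k+1)` elements.
-/

open scoped Pointwise

namespace H29CC

variable {G : Type*} [AddCommGroup G] [DecidableEq G]

theorem HasSum.list_sum {m : ℕ} {ι : Type*} (r : ι → ℕ) (T : ι → Finset G) (l : List ι)
    (h : ∀ i ∈ l, HasSum m (r i) (T i)) : HasSum m (l.map r).sum (l.map T).sum := by
  induction l with
  | nil => exact Finset.singleton_nonempty 0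
  | cons a l ih =>
    rw [List.map_cons, List.map_cons, List.sum_cons, List.sum_cons]
    exact (h a (by simp)).add (ih fun i hi => h i (by simp [hi]))

theorem HasSum.fin_sum {m h : ℕ} (r : Fin h → ℕ) (T : Fin h → Finset G)
    (H : ∀ t, HasSum m (r t) (T t)) : HasSum m (∑ t, r t) (∑ t, T t) := by
  induction h with
  | zero =>
    rw [Fin.sum_univ_zero, Fin.sum_univ_zero]
    exact Finset.singleton_nonempty 0
  | succ h ih =>
    rw [Fin.sum_univ_succ, Fin.sum_univ_succ]
    exact (H 0).add (ih _ _ fun t => H _)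

theorem fin_sum_mem {h : ℕ} (T : Fin h → Finset G) (y : Fin h → G) (H : ∀ t, y t ∈ T t) :
    ∑ t, y t ∈ ∑ t, T t := by
  induction h with
  | zero =>
    rw [Fin.sum_univ_zero, Fin.sum_univ_zero]
    exact Finset.zero_mem_zero
  | succ h ih =>
    rw [Fin.sum_univ_succ, Fin.sum_univ_succ]
    exact Finset.add_mem_add (H 0) (ih _ _ fun t => H _)

theorem card_fin_sum_le {h : ℕ} (T : Fin h → Finset G) :
    (∑ t, T t).card ≤ ∏ t, (T t).card := by
  induction h with
  | zero =>
    rw [Fin.sum_univ_zero, Fin.prod_univ_zero]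
    simp
  | succ h ih =>
    rw [Fin.sum_univ_succ, Fin.prod_univ_succ]
    exact Finset.card_add_le.trans (Nat.mul_le_mul_left _ (ih _))

/-- relative rank -/
noncomputable def rk (m k : ℕ) (S : Finset G) : ℕ := by
  classical
  exact Nat.findGreatest (fun l => HasSum m l S) k

theorem rk_le (m k : ℕ) (S : Finset G) : rk m k S ≤ k := by
  classical
  unfold rk
  exact Nat.findGreatest_le k

theorem rk_spec (m k : ℕ) {S : Finset G} (h : S.Nonempty) : HasSum m (rk m k S) S := by
  classical
  unfold rk
  exact Nat.findGreatest_spec (P := fun l => HasSum m l S) (Nat.zero_le k) h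

theorem not_of_rk_lt {m k l : ℕ} {S : Finset G} (h : rk m k S < l) (hl : l ≤ k) :
    ¬ HasSum m l S := by
  classical
  unfold rk at h
  exact Nat.findGreatest_is_greatest h hl

theorem le_rk {m k l : ℕ} {S : Finset G} (h : HasSum m l S) (hl : l ≤ k) : l ≤ rk m k S := by
  by_contra hcon
  push Not at hcon
  exact not_of_rk_lt hcon hl h

theorem rk_singleton {m k : ℕ} (hm : 1 ≤ m) (t : G) : rk m k ({t} : Finset G) = 0 := by
  by_contra hcon
  obtain ⟨l, hl⟩ := Nat.exists_eq_succ_of_ne_zero hcon
  have := rk_spec m k (Finset.singleton_nonempty t)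
  rw [hl] at this
  exact singleton_not hm t this

/-- the bound -/
def B (s m k : ℕ) : ℕ := (4 * s) ^ k * m ^ (2 * k + 1)

theorem B_mono {s m : ℕ} (hs : 1 ≤ s) (hm : 1 ≤ m) {a b : ℕ} (h : a ≤ b) : B s m a ≤ B s m b :=
  Nat.mul_le_mul (Nat.pow_le_pow_right (by omega) h) (Nat.pow_le_pow_right hm (by omega))

/-- the bound for the rest sets -/
def R (s m k : ℕ) : ℕ := 2 * (4 * s) ^ (k - 1) * m ^ (2 * k)

theorem R_union {s m k a b : ℕ} (hs : 1 ≤ s) (hm : 1 ≤ m) (hk : 1 ≤ k) (ha : a < k)
    (hb : b < k) : B s m a + B s m b ≤ R s m k := by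
  have h1 : ∀ e < k, B s m e ≤ (4 * s) ^ (k - 1) * m ^ (2 * k) := fun e he =>
    Nat.mul_le_mul (Nat.pow_le_pow_right (by omega) (by omega))
      (Nat.pow_le_pow_right hm (by omega))
  have h2 := h1 a ha
  have h3 := h1 b hb
  unfold R
  rw [mul_assoc]
  omega

theorem R_add {s m k a b : ℕ} (hs : 1 ≤ s) (hm : 1 ≤ m) (hab : a + b < k) :
    B s m a * B s m b ≤ R s m k := by
  have h1 : (4 * s) ^ (a + b) ≤ (4 * s) ^ (k - 1) := Nat.pow_le_pow_right (by omega) (by omega)
  have h2 : m ^ (2 * (a + b) + 2) ≤ m ^ (2 * k) := Nat.pow_le_pow_right hm (by omega)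
  calc B s m a * B s m b = (4 * s) ^ (a + b) * m ^ (2 * (a + b) + 2) := by
        unfold B; ring
    _ ≤ (4 * s) ^ (k - 1) * m ^ (2 * k) := Nat.mul_le_mul h1 h2
    _ ≤ R s m k := by unfold R; rw [mul_assoc]; omega

theorem prod_R {s m h : ℕ} (κ : Fin h → ℕ) (hκ : ∀ t, 1 ≤ κ t) :
    ∏ t, R s m (κ t) = 2 ^ h * (4 * s) ^ (∑ t, κ t - h) * m ^ (2 * ∑ t, κ t) ∧
      h ≤ ∑ t, κ t := by
  induction h with
  | zero => simp
  | succ h ih =>
    obtain ⟨h1, h2⟩ := ih (fun t => κ t.succ) (fun t => hκ _)
    rw [Fin.prod_univ_succ, Fin.sum_univ_succ, h1]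
    have h3 := hκ 0
    refine ⟨?_, by omega⟩
    obtain ⟨e, he⟩ := Nat.exists_eq_add_of_le h3
    obtain ⟨f, hf⟩ := Nat.exists_eq_add_of_le h2
    rw [he, hf]
    unfold R
    have e1 : 1 + e - 1 = e := by omega
    have e2 : h + f - h = f := by omega
    have e3 : 1 + e + (h + f) - (h + 1) = e + f := by omega
    rw [e1, e2, e3]
    ring

theorem geom_sum (k : ℕ) : (∑ h ∈ Finset.range k, 2 ^ (h + 1) * 4 ^ (k - (h + 1))) + 2 ^ k
    = 4 ^ k := by
  induction k with
  | zero => simp
  | succ k ih =>
    rw [Finset.sum_range_succ]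
    have h1 : ∀ h ∈ Finset.range k, 2 ^ (h + 1) * 4 ^ (k + 1 - (h + 1)) =
        4 * (2 ^ (h + 1) * 4 ^ (k - (h + 1))) := by
      intro h hh
      rw [Finset.mem_range] at hh
      obtain ⟨e, he⟩ := Nat.exists_eq_add_of_le (show h + 1 ≤ k by omega)
      have e1 : k + 1 - (h + 1) = e + 1 := by omega
      have e2 : k - (h + 1) = e := by omega
      rw [e1, e2]
      ring
    rw [Finset.sum_congr rfl h1, ← Finset.mul_sum]
    have h2 : k + 1 - (k + 1) = 0 := by omega
    rw [h2]
    have h3 : 4 ^ (k + 1) = 4 * 4 ^ k := by ring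
    rw [h3, ← ih]
    ring

/-- configurations: several holes below the set `S` -/
structure Conf (m k N : ℕ) (F : ℕ → Finset G) (S : Finset G) (x : G)
    (L : Multiset (ℕ × G)) (c : G) : Prop where
  mem : ∀ p ∈ L, p.1 < N ∧ p.2 ∈ F p.1 ∧ 1 ≤ rk m k (F p.1)
  rank : k ≤ (L.map fun p => rk m k (F p.1)).sum
  sub : ∀ z ∈ (L.map fun p => F p.1).sum, c + z ∈ S
  eq : x = c + (L.map Prod.snd).sum

theorem step {m k N : ℕ} {F : ℕ → Finset G} (hF : IsCircuit N F) (hm : 1 ≤ m) {j : ℕ}
    (hj : j < N) (hjr : 1 ≤ rk m k (F j)) :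
    ∃ D : Finset G,
      (∀ s, 1 ≤ s → (∀ a < N, ¬ HasSum m (rk m k (F a) + 1) (F a) →
          rk m k (F a) < k → (F a).card ≤ B s m (rk m k (F a))) →
        D.card ≤ R s m (rk m k (F j))) ∧
      ∀ y ∈ F j, y ∉ D → ∃ (L' : Multiset (ℕ × G)) (v : G),
        (∀ p ∈ L', p.1 < j ∧ p.2 ∈ F p.1 ∧ 1 ≤ rk m k (F p.1)) ∧ L'.card ≤ 2 ∧
        rk m k (F j) ≤ (L'.map fun p => rk m k (F p.1)).sum ∧
        (∀ z ∈ (L'.map fun p => F p.1).sum, v + z ∈ F j) ∧
        y = v + (L'.map Prod.snd).sum := by
  classical
  rcases hF j hj with ⟨t, ht⟩ | ⟨a, ha, b, hb, h⟩ | ⟨a, ha, b, hb, h⟩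
  · exfalso
    rw [ht, rk_singleton hm] at hjr
    omega
  · -- union
    refine ⟨(if rk m k (F a) < rk m k (F j) then F a else ∅) ∪
      (if rk m k (F b) < rk m k (F j) then F b else ∅), ?_, ?_⟩
    · intro s hs hIH
      have hjk := rk_le m k (F j)
      have key : ∀ e < N, ∃ e' < rk m k (F j),
          (if rk m k (F e) < rk m k (F j) then F e else ∅).card ≤ B s m e' := by
        intro e he
        split_ifs with hh
        · exact ⟨_, hh, hIH e he (not_of_rk_lt (Nat.lt_succ_self _) (by omega)) (by omega)⟩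
        · exact ⟨0, by omega, by simp⟩
      obtain ⟨a', ha', h1⟩ := key a (by omega)
      obtain ⟨b', hb', h2⟩ := key b (by omega)
      have h3 := R_union (s := s) hs hm hjr ha' hb'
      exact (Finset.card_union_le _ _).trans (by omega)
    · intro y hy hyD
      rw [h] at hy
      have key : ∀ e < j, F e ⊆ F j → y ∈ F e →
          y ∉ (if rk m k (F e) < rk m k (F j) then F e else ∅) →
          ∃ (L' : Multiset (ℕ × G)) (v : G),
          (∀ p ∈ L', p.1 < j ∧ p.2 ∈ F p.1 ∧ 1 ≤ rk m k (F p.1)) ∧ L'.card ≤ 2 ∧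
          rk m k (F j) ≤ (L'.map fun p => rk m k (F p.1)).sum ∧
          (∀ z ∈ (L'.map fun p => F p.1).sum, v + z ∈ F j) ∧
          y = v + (L'.map Prod.snd).sum := by
        intro e he hsub hye hnot
        split_ifs at hnot with hh
        · exact absurd hye hnot
        · refine ⟨{(e, y)}, 0, ?_, by simp, ?_, ?_, ?_⟩
          · intro p hp
            rw [Multiset.mem_singleton] at hp
            subst hp
            exact ⟨he, hye, by show 1 ≤ rk m k (F e); omega⟩
          · rw [Multiset.map_singleton, Multiset.sum_singleton]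
            show _ ≤ rk m k (F e)
            omega
          · intro z hz
            rw [Multiset.map_singleton, Multiset.sum_singleton] at hz
            rw [zero_add]
            exact hsub hz
          · rw [Multiset.map_singleton, Multiset.sum_singleton, zero_add]
      rw [Finset.mem_union, not_or] at hyD
      rcases Finset.mem_union.1 hy with hy | hy
      · exact key a ha (by rw [h]; exact Finset.subset_union_left) hy hyD.1
      · exact key b hb (by rw [h]; exact Finset.subset_union_right) hy hyD.2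
  · -- sum
    refine ⟨if rk m k (F a) + rk m k (F b) < rk m k (F j) then F a + F b else ∅, ?_, ?_⟩
    · intro s hs hIH
      have hjk := rk_le m k (F j)
      split_ifs with hh
      · have h1 := hIH a (by omega) (not_of_rk_lt (Nat.lt_succ_self _) (by omega)) (by omega)
        have h2 := hIH b (by omega) (not_of_rk_lt (Nat.lt_succ_self _) (by omega)) (by omega)
        exact Finset.card_add_le.trans ((Nat.mul_le_mul h1 h2).trans (R_add hs hm hh))
      · simp
    · intro y hy hyD
      rw [h] at hy
      obtain ⟨u, hu, v, hv, rfl⟩ := Finset.mem_add.1 hy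
      split_ifs at hyD with hh
      · exact absurd (Finset.add_mem_add hu hv) hyD
      · push Not at hh
        by_cases h0 : rk m k (F a) = 0
        · refine ⟨{(b, v)}, u, ?_, by simp, ?_, ?_, ?_⟩
          · intro p hp
            rw [Multiset.mem_singleton] at hp
            subst hp
            exact ⟨hb, hv, by show 1 ≤ rk m k (F b); omega⟩
          · rw [Multiset.map_singleton, Multiset.sum_singleton]
            show _ ≤ rk m k (F b)
            omega
          · intro z hz
            rw [Multiset.map_singleton, Multiset.sum_singleton] at hz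
            rw [h]
            exact Finset.add_mem_add hu hz
          · rw [Multiset.map_singleton, Multiset.sum_singleton]
        by_cases h1 : rk m k (F b) = 0
        · refine ⟨{(a, u)}, v, ?_, by simp, ?_, ?_, ?_⟩
          · intro p hp
            rw [Multiset.mem_singleton] at hp
            subst hp
            exact ⟨ha, hu, by show 1 ≤ rk m k (F a); omega⟩
          · rw [Multiset.map_singleton, Multiset.sum_singleton]
            show _ ≤ rk m k (F a)
            omega
          · intro z hz
            rw [Multiset.map_singleton, Multiset.sum_singleton] at hz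
            rw [h, add_comm v z]
            exact Finset.add_mem_add hz hv
          · rw [Multiset.map_singleton, Multiset.sum_singleton, add_comm]
        refine ⟨{(a, u), (b, v)}, 0, ?_, by simp, ?_, ?_, ?_⟩
        · intro p hp
          rw [Multiset.insert_eq_cons, Multiset.mem_cons, Multiset.mem_singleton] at hp
          rcases hp with rfl | rfl
          · exact ⟨ha, hu, by show 1 ≤ rk m k (F a); omega⟩
          · exact ⟨hb, hv, by show 1 ≤ rk m k (F b); omega⟩
        · rw [Multiset.insert_eq_cons, Multiset.map_cons, Multiset.map_singleton,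
            Multiset.sum_cons, Multiset.sum_singleton]
          exact hh
        · intro z hz
          rw [Multiset.insert_eq_cons, Multiset.map_cons, Multiset.map_singleton,
            Multiset.sum_cons, Multiset.sum_singleton] at hz
          rw [zero_add, h]
          exact hz
        · rw [Multiset.insert_eq_cons, Multiset.map_cons, Multiset.map_singleton,
            Multiset.sum_cons, Multiset.sum_singleton, zero_add]

/-- every element is reached by a configuration all of whose holes are critical -/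
theorem exists_conf {m k N : ℕ} {F : ℕ → Finset G} (hF : IsCircuit N F) (hm : 1 ≤ m)
    {D : ℕ → Finset G}
    (hD : ∀ j < N, 1 ≤ rk m k (F j) → ∀ y ∈ F j, y ∉ D j →
      ∃ (L' : Multiset (ℕ × G)) (v : G),
        (∀ p ∈ L', p.1 < j ∧ p.2 ∈ F p.1 ∧ 1 ≤ rk m k (F p.1)) ∧ L'.card ≤ 2 ∧
        rk m k (F j) ≤ (L'.map fun p => rk m k (F p.1)).sum ∧
        (∀ z ∈ (L'.map fun p => F p.1).sum, v + z ∈ F j) ∧
        y = v + (L'.map Prod.snd).sum)
    {S : Finset G} {x : G} {L : Multiset (ℕ × G)} {c : G} (hL : Conf m k N F S x L c) :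
    ∃ L c, Conf m k N F S x L c ∧ ∀ p ∈ L, p.2 ∈ D p.1 := by
  classical
  -- measure
  obtain ⟨M, hM⟩ : ∃ M, M = (L.map fun p => 3 ^ p.1).sum := ⟨_, rfl⟩
  induction M using Nat.strong_induction_on generalizing L c with
  | _ M ih =>
  by_cases hall : ∀ p ∈ L, p.2 ∈ D p.1
  · exact ⟨L, c, hL, hall⟩
  push Not at hall
  obtain ⟨p, hp, hpD⟩ := hall
  obtain ⟨L0, rfl⟩ := Multiset.exists_cons_of_mem hp
  obtain ⟨h1, h2, h3⟩ := hL.mem p hp
  obtain ⟨L', v, hL'1, hL'2, hL'3, hL'4, hL'5⟩ := hD p.1 h1 h3 p.2 h2 hpD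
  have hmeas : (L'.map fun p => 3 ^ p.1).sum < 3 ^ p.1 := by
    have hj0 : p.1 ≠ 0 ∨ L' = 0 := by
      by_cases h0 : L' = 0
      · exact Or.inr h0
      · obtain ⟨q, hq⟩ := Multiset.exists_mem_of_ne_zero h0
        left
        have := (hL'1 q hq).1
        omega
    rcases hj0 with h0 | h0
    · obtain ⟨e, he⟩ := Nat.exists_eq_succ_of_ne_zero h0
      have h5 : ∀ w ∈ L'.map (fun p => 3 ^ p.1), w ≤ 3 ^ e := by
        intro w hw
        obtain ⟨q, hq, rfl⟩ := Multiset.mem_map.1 hw
        have := (hL'1 q hq).1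
        exact Nat.pow_le_pow_right (by norm_num) (by omega)
      have h6 := Multiset.sum_le_card_nsmul _ _ h5
      rw [Multiset.card_map, smul_eq_mul] at h6
      have h7 : L'.card * 3 ^ e ≤ 2 * 3 ^ e := Nat.mul_le_mul_right _ hL'2
      have h8 : 0 < 3 ^ e := by positivity
      rw [he, Nat.succ_eq_add_one, pow_succ]
      omega
    · rw [h0]
      simp
  refine ih ((L' + L0).map fun p => 3 ^ p.1).sum ?_ (L := L' + L0) (c := c + v) ?_ rfl
  · rw [hM, Multiset.map_cons, Multiset.sum_cons, Multiset.map_add, Multiset.sum_add]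
    omega
  · constructor
    · intro q hq
      rcases Multiset.mem_add.1 hq with hq | hq
      · obtain ⟨a1, a2, a3⟩ := hL'1 q hq
        exact ⟨by omega, a2, a3⟩
      · exact hL.mem q (Multiset.mem_cons_of_mem hq)
    · have := hL.rank
      rw [Multiset.map_cons, Multiset.sum_cons] at this
      rw [Multiset.map_add, Multiset.sum_add]
      omega
    · intro z hz
      rw [Multiset.map_add, Multiset.sum_add] at hz
      obtain ⟨z1, hz1, z2, hz2, rfl⟩ := Finset.mem_add.1 hz
      have e1 : c + v + (z1 + z2) = c + ((v + z1) + z2) := by abel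
      rw [e1]
      apply hL.sub
      rw [Multiset.map_cons, Multiset.sum_cons]
      exact Finset.add_mem_add (hL'4 z1 hz1) hz2
    · have h4 := hL.eq
      rw [Multiset.map_cons, Multiset.sum_cons] at h4
      rw [Multiset.map_add, Multiset.sum_add, h4, hL'5]
      abel

/-- **Sharp counting bound.** -/
theorem card_le_sharp {N : ℕ} {F : ℕ → Finset G} (hF : IsCircuit N F) {s m : ℕ} (hs : 1 ≤ s)
    (hm : 1 ≤ m) (hg : (gates N F).card ≤ s) (k : ℕ) :
    ∀ i < N, ¬ HasSum m (k + 1) (F i) → (F i).card ≤ B s m k := by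
  classical
  induction k using Nat.strong_induction_on with
  | _ k ih =>
  intro i hi hk
  rcases Nat.eq_zero_or_pos k with rfl | hkpos
  · by_contra hcon
    push Not at hcon
    apply hk
    apply HasSum.one
    have : B s m 0 = m := by unfold B; ring
    omega
  by_cases hk0 : HasSum m k (F i)
  swap
  · obtain ⟨k', rfl⟩ := Nat.exists_eq_add_of_le' hkpos
    exact (ih k' (by omega) i hi hk0).trans (B_mono hs hm (by omega))
  -- the rest sets
  have hex : ∀ j, ∃ D : Finset G, j < N → 1 ≤ rk m k (F j) →
      (D.card ≤ R s m (rk m k (F j))) ∧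
      ∀ y ∈ F j, y ∉ D → ∃ (L' : Multiset (ℕ × G)) (v : G),
        (∀ p ∈ L', p.1 < j ∧ p.2 ∈ F p.1 ∧ 1 ≤ rk m k (F p.1)) ∧ L'.card ≤ 2 ∧
        rk m k (F j) ≤ (L'.map fun p => rk m k (F p.1)).sum ∧
        (∀ z ∈ (L'.map fun p => F p.1).sum, v + z ∈ F j) ∧
        y = v + (L'.map Prod.snd).sum := by
    intro j
    by_cases hj : j < N ∧ 1 ≤ rk m k (F j)
    · obtain ⟨D, h1, h2⟩ := step (k := k) hF hm hj.1 hj.2
      refine ⟨D, fun _ _ => ⟨h1 s hs ?_, h2⟩⟩
      intro a ha hna hlt
      exact ih _ hlt a ha hna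
    · exact ⟨∅, fun h1 h2 => absurd ⟨h1, h2⟩ hj⟩
  choose D hD using hex
  -- index set: functions from `Fin h` to the gates
  let good : (h : ℕ) → (Fin h → ℕ) → Prop := fun h f =>
    (∑ t, rk m k (F (f t))) = k ∧ ∀ t, f t < N ∧ 1 ≤ rk m k (F (f t))
  let C : (h : ℕ) → (Fin h → ℕ) → Finset G := fun h f =>
    (F i - ∑ t, F (f t)).filter fun c => ∀ z ∈ ∑ t, F (f t), c + z ∈ F i
  let W : (h : ℕ) → (Fin h → ℕ) → Finset G := fun h f =>
    if good h f then C h f + ∑ t, D (f t) else ∅
  have hcover : F i ⊆ (Finset.range k).biUnion fun h =>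
      (Fintype.piFinset fun _ : Fin (h + 1) => gates N F).biUnion fun f => W (h + 1) f := by
    intro x hx
    have hrki : k ≤ rk m k (F i) := le_rk hk0 le_rfl
    have h0 : Conf m k N F (F i) x {(i, x)} 0 := by
      constructor
      · intro p hp
        rw [Multiset.mem_singleton] at hp
        subst hp
        exact ⟨hi, hx, by show 1 ≤ rk m k (F i); omega⟩
      · rw [Multiset.map_singleton, Multiset.sum_singleton]
        exact hrki
      · intro z hz
        rw [Multiset.map_singleton, Multiset.sum_singleton] at hz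
        rw [zero_add]
        exact hz
      · rw [Multiset.map_singleton, Multiset.sum_singleton, zero_add]
    obtain ⟨L, c, hL, hLD⟩ := exists_conf (D := D) hF hm (fun j hj hr y hy hyD =>
      (hD j hj hr).2 y hy hyD) h0
    obtain ⟨l, rfl⟩ : ∃ l : List (ℕ × G), (l : Multiset (ℕ × G)) = L :=
      ⟨L.toList, Multiset.coe_toList L⟩
    -- rank is exactly k
    have hrank : (l.map fun p => rk m k (F p.1)).sum = k := by
      have h1 := hL.rank
      rw [Multiset.map_coe, Multiset.sum_coe] at h1
      apply le_antisymm _ h1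
      by_contra hcon
      push Not at hcon
      apply hk
      have h2 : HasSum m (l.map fun p => rk m k (F p.1)).sum (l.map fun p => F p.1).sum := by
        apply HasSum.list_sum (fun p : ℕ × G => rk m k (F p.1)) (fun p => F p.1)
        intro p hp
        exact rk_spec m k ⟨p.2, (hL.mem p (Multiset.mem_coe.2 hp)).2.1⟩
      have h3 := (h2.translate c).le (show k + 1 ≤ _ from hcon)
      refine h3.mono ?_
      intro w hw
      obtain ⟨c', hc', z, hz, rfl⟩ := Finset.mem_add.1 hw
      rw [Finset.mem_singleton] at hc'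
      subst hc'
      apply hL.sub
      rw [Multiset.map_coe, Multiset.sum_coe]
      exact hz
    have hlen : l.length ≤ k ∧ 1 ≤ l.length := by
      constructor
      · rw [← hrank]
        calc l.length = (l.map fun _ => 1).sum := by simp
          _ ≤ (l.map fun p => rk m k (F p.1)).sum := by
              apply List.sum_le_sum
              intro p hp
              exact (hL.mem p (Multiset.mem_coe.2 hp)).2.2
      · by_contra hcon
        have : l = [] := List.length_eq_zero_iff.1 (by omega)
        rw [this] at hrank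
        simp at hrank
        omega
    obtain ⟨h, hh⟩ := Nat.exists_eq_add_of_le' hlen.2
    have hget : ∀ t : Fin l.length, l[t.1] ∈ l := fun t => List.getElem_mem _
    rw [Finset.mem_biUnion]
    refine ⟨h, Finset.mem_range.2 (by omega), ?_⟩
    rw [← hh, Finset.mem_biUnion]
    refine ⟨fun t : Fin l.length => (l[t.1]).1, ?_, ?_⟩
    · rw [Fintype.mem_piFinset]
      intro t
      obtain ⟨a1, a2, a3⟩ := hL.mem _ (Multiset.mem_coe.2 (hget t))
      unfold gates
      rw [Finset.mem_filter, Finset.mem_range]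
      refine ⟨a1, ?_⟩
      by_contra hcon
      push Not at hcon
      obtain ⟨w, hw⟩ := Finset.card_eq_one.1
        (le_antisymm hcon (Finset.card_pos.2 ⟨_, a2⟩))
      rw [hw, rk_singleton hm] at a3
      omega
    · have hgood : good l.length (fun t : Fin l.length => (l[t.1]).1) := by
        refine ⟨?_, ?_⟩
        · exact (Fin.sum_univ_fun_getElem l (fun p : ℕ × G => rk m k (F p.1))).trans hrank
        · intro t
          obtain ⟨a1, a2, a3⟩ := hL.mem _ (Multiset.mem_coe.2 (hget t))
          exact ⟨a1, a3⟩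
      have hsumF : (∑ t : Fin l.length, F (l[t.1]).1) = (l.map fun p => F p.1).sum :=
        Fin.sum_univ_fun_getElem l (fun p : ℕ × G => F p.1)
      have hsnd : (l.map Prod.snd).sum ∈ ∑ t : Fin l.length, F (l[t.1]).1 := by
        rw [← Fin.sum_univ_fun_getElem l Prod.snd]
        exact fin_sum_mem _ _ fun t =>
          (hL.mem _ (Multiset.mem_coe.2 (hget t))).2.1
      have hsndD : (l.map Prod.snd).sum ∈ ∑ t : Fin l.length, D (l[t.1]).1 := by
        rw [← Fin.sum_univ_fun_getElem l Prod.snd]
        exact fin_sum_mem _ _ fun t => hLD _ (Multiset.mem_coe.2 (hget t))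
      show x ∈ W l.length _
      simp only [W]
      rw [if_pos hgood]
      rw [hL.eq, Multiset.map_coe, Multiset.sum_coe]
      apply Finset.add_mem_add _ hsndD
      rw [Finset.mem_filter]
      have hsub : ∀ z ∈ ∑ t : Fin l.length, F (l[t.1]).1, c + z ∈ F i := by
        intro z hz
        apply hL.sub
        rw [Multiset.map_coe, Multiset.sum_coe]
        rw [hsumF] at hz
        exact hz
      refine ⟨?_, hsub⟩
      rw [Finset.mem_sub]
      exact ⟨_, hsub _ hsnd, _, hsnd, by abel⟩
  -- size of W
  have hW : ∀ h ∈ Finset.range k, ∀ f ∈ (Fintype.piFinset fun _ : Fin (h + 1) => gates N F),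
      (W (h + 1) f).card ≤ m * (2 ^ (h + 1) * (4 * s) ^ (k - (h + 1)) * m ^ (2 * k)) := by
    intro h hh f _
    simp only [W]
    split_ifs with hgood
    swap
    · simp
    have h1 : (C (h + 1) f).card ≤ m := by
      refine card_translates (k := k) (T := ∑ t, F (f t)) (S := F i) ?_ hk ?_
      · have h2 := HasSum.fin_sum (m := m) (fun t => rk m k (F (f t))) (fun t => F (f t))
          (fun t => rk_spec m k (circuit_nonempty hF _ (hgood.2 t).1))
        rw [hgood.1] at h2
        exact h2
      · intro c hc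
        exact (Finset.mem_filter.1 hc).2
    have h2 : (∑ t, D (f t)).card ≤ 2 ^ (h + 1) * (4 * s) ^ (k - (h + 1)) * m ^ (2 * k) := by
      calc (∑ t, D (f t)).card ≤ ∏ t, (D (f t)).card := card_fin_sum_le _
        _ ≤ ∏ t, R s m (rk m k (F (f t))) := by
            apply Finset.prod_le_prod'
            intro t _
            exact (hD (f t) (hgood.2 t).1 (hgood.2 t).2).1
        _ = _ := by
            rw [(prod_R (s := s) (m := m) (fun t => rk m k (F (f t)))
              (fun t => (hgood.2 t).2)).1, hgood.1]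
    exact Finset.card_add_le.trans (Nat.mul_le_mul h1 h2)
  calc (F i).card ≤ _ := Finset.card_le_card hcover
    _ ≤ ∑ h ∈ Finset.range k, ((Fintype.piFinset fun _ : Fin (h + 1) =>
          gates N F).biUnion fun f => W (h + 1) f).card := Finset.card_biUnion_le
    _ ≤ ∑ h ∈ Finset.range k, s ^ (h + 1) *
          (m * (2 ^ (h + 1) * (4 * s) ^ (k - (h + 1)) * m ^ (2 * k))) := by
        apply Finset.sum_le_sum
        intro h hh
        refine Finset.card_biUnion_le.trans ?_
        refine (Finset.sum_le_card_nsmul _ _ _ (hW h hh)).trans ?_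
        rw [smul_eq_mul]
        apply Nat.mul_le_mul_right
        rw [Fintype.card_piFinset_const]
        exact Nat.pow_le_pow_left hg _
    _ = (∑ h ∈ Finset.range k, 2 ^ (h + 1) * 4 ^ (k - (h + 1))) * (s ^ k * m ^ (2 * k + 1)) := by
        rw [Finset.sum_mul]
        apply Finset.sum_congr rfl
        intro h hh
        rw [Finset.mem_range] at hh
        obtain ⟨e, he⟩ := Nat.exists_eq_add_of_le (show h + 1 ≤ k by omega)
        have e2 : k - (h + 1) = e := by omega
        rw [e2, he, mul_pow]
        ring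
    _ ≤ 4 ^ k * (s ^ k * m ^ (2 * k + 1)) := by
        apply Nat.mul_le_mul_right
        exact (Nat.le_add_right _ _).trans_eq (geom_sum k)
    _ = B s m k := by
        unfold B
        rw [mul_pow]
        ring

end H29CC
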